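import Mathlib
import Pool.Agent.H362R2.RQ.Fin
import Pool.Agent.W142.ES.Exact

set_option autoImplicit false

/-!
# Every shape occurs exactly, at all but boundedly many scales up to the record scale

The coloured Maynard-Tao theorem inside the record windows (`Pool.Agent.H362R2.RQ.stRQ` of the starting files,
helper362 and others) is combined with the density Hales-Jewett theorem (`Pool.Agent.Helper903.DHJ`, starting
files) for words whose letters are displacements at rapidly decreasing scales. The level of the first wildcard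
of a line is realised exactly.
-/

open Filter

namespace Pool.Agent.Results.MP_b0c12c_nt.ExactScales

/-- The record scale `f(x) = log x (log₂ x)² log₄ x / (log₃ x)²` (iterated natural logarithms). -/
noncomputable def f (x : ℝ) : ℝ :=
  Real.log x * (Real.log (Real.log x)) ^ 2 * Real.log (Real.log (Real.log (Real.log x))) /
    (Real.log (Real.log (Real.log x))) ^ 2

/-- The primes at distance at most `R H` from `n` are `≡ a (mod q)`, have `(p - n)/H` within `δ` of a point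
of `S`, and their number is at most `B`; each point of `S` is within `δ` of `(p - n)/H` for at least `m`
primes `p ≡ a (mod q)`. -/
def Looks (q a m B : ℕ) (R δ H : ℝ) (S : Finset ℝ) (n : ℕ) : Prop :=
  (∀ p : ℕ, p.Prime → |(p : ℝ) - n| ≤ R * H → p ≡ a [MOD q] ∧ ∃ y ∈ S, |((p : ℝ) - n) / H - y| ≤ δ) ∧
  (∀ y ∈ S, m ≤ {p : ℕ | p.Prime ∧ p ≡ a [MOD q] ∧ |((p : ℝ) - n) / H - y| ≤ δ}.ncard) ∧
  {p : ℕ | p.Prime ∧ |(p : ℝ) - n| ≤ R * H}.ncard ≤ B

/-- For all `k`, `m` there are `B` and `c > 0`, for all `R ≥ 1` and `δ > 0` there is `ρ > 0` such that for every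
squarefree `q`, every `a` prime to `q` and all large `X` there are at most `B` exceptional blocks
`[ρ x, x]` of scales, `x ∈ E`, with the following property. For every scale `H ≥ log X` with
`R H ≤ c f(X)` outside the exceptional blocks and every set `S ⊆ [-R, R]` of at most `k` reals there are
at least `X^(7/8)` integers `n ∈ (X, 4X]` around which the primes look like `n + H S`. -/
theorem result (k m : ℕ) : ∃ B : ℕ, ∃ c : ℝ, 0 < c ∧ ∀ R δ : ℝ, 1 ≤ R → 0 < δ → ∃ ρ : ℝ, 0 < ρ ∧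
    ∀ q a : ℕ, Squarefree q → a.Coprime q → ∃ X₀ : ℝ, ∀ X : ℝ, X₀ ≤ X →
    ∃ E : Finset ℝ, E.card ≤ B ∧ ∀ H : ℝ, Real.log X ≤ H → R * H ≤ c * f X →
      (∀ x ∈ E, H < ρ * x ∨ x < H) → ∀ S : Finset ℝ, S.card ≤ k → (∀ y ∈ S, |y| ≤ R) →
      X ^ (7 / 8 : ℝ) ≤ ({n : ℕ | X < n ∧ (n : ℝ) ≤ 4 * X ∧ Looks q a m B R δ H S n}.ncard : ℝ) := by
  obtain ⟨B, c, hc, h⟩ := Pool.Agent.W142.ES.exact_scales Pool.Agent.H362R2.RQ.stRQ k m
  refine ⟨B, c, hc, fun R δ hR hδ => ?_⟩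
  obtain ⟨ρ, hρ, h2⟩ := h R δ hR hδ
  exact ⟨ρ, hρ, fun q a hq ha => eventually_atTop.1 (h2 q a hq ha)⟩

/-- Arbitrary sets of reals: for all `m`, `R ≥ 1` and `δ > 0` there are `B` and `c > 0` such that for every
squarefree `q`, every `a` prime to `q` and all large `X`, for every scale `log X ≤ H ≤ c f(X)` outside at most
`B` blocks `[c x, x]` and every set `S` of reals, for at least `X^(7/8)` integers `n ∈ (X, 4X]` all the
primes `p` with `|p - n| ≤ R H` are `≡ a (mod q)` and have `(p - n)/H` within `δ` of `S`, and every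
point of `S ∩ [-R, R]` is within `δ` of `(p - n)/H` for at least `m` primes `p ≡ a (mod q)`. -/
theorem every_set (m : ℕ) (R δ : ℝ) (hR : 1 ≤ R) (hδ : 0 < δ) : ∃ B : ℕ, ∃ c : ℝ, 0 < c ∧
    ∀ q a : ℕ, Squarefree q → a.Coprime q → ∃ X₀ : ℝ, ∀ X : ℝ, X₀ ≤ X →
    ∃ E : Finset ℝ, E.card ≤ B ∧ ∀ H : ℝ, Real.log X ≤ H → H ≤ c * f X →
      (∀ x ∈ E, H < c * x ∨ x < H) → ∀ S : Set ℝ,
      X ^ (7 / 8 : ℝ) ≤ ({n : ℕ | X < n ∧ (n : ℝ) ≤ 4 * X ∧
        (∀ p : ℕ, p.Prime → |(p : ℝ) - n| ≤ R * H → p ≡ a [MOD q] ∧ ∃ y ∈ S, |((p : ℝ) - n) / H - y| ≤ δ) ∧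
        ∀ y ∈ S, |y| ≤ R →
          m ≤ {p : ℕ | p.Prime ∧ p ≡ a [MOD q] ∧ |((p : ℝ) - n) / H - y| ≤ δ}.ncard}.ncard : ℝ) := by
  classical
  obtain ⟨N, _, hNfin, hNcov⟩ := Metric.finite_approx_of_totallyBounded (totallyBounded_Icc (-R) R)
    (δ / 4) (by linarith)
  set Nf : Finset ℝ := hNfin.toFinset with hNf
  have hcov : ∀ y : ℝ, |y| ≤ R → ∃ z ∈ Nf, |y - z| ≤ δ / 4 := by
    intro y hy
    have h1 := hNcov (abs_le.1 hy)
    rw [Set.mem_iUnion₂] at h1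
    obtain ⟨z, hz, hyz⟩ := h1
    rw [Metric.mem_ball, Real.dist_eq] at hyz
    exact ⟨z, hNfin.mem_toFinset.2 hz, hyz.le⟩
  obtain ⟨B, c, hc, h⟩ := result Nf.card m
  obtain ⟨ρ, hρ, h2⟩ := h R (δ / 2) hR (by linarith)
  have hR0 : 0 < R := by linarith
  refine ⟨B, min (c / R) ρ, lt_min (by positivity) hρ, fun q a hq ha => ?_⟩
  obtain ⟨X₀, h3⟩ := h2 q a hq ha
  obtain ⟨X₁, h4⟩ := eventually_atTop.1 ((Pool.Agent.H312R2.RG.C3.ff_tendsto.eventually_gt_atTop 0).and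
    (Real.tendsto_log_atTop.eventually_gt_atTop 0))
  refine ⟨max X₀ X₁, fun X hX => ?_⟩
  have hff : 0 < f X := (h4 X ((le_max_right _ _).trans hX)).1
  have hlX : 0 < Real.log X := (h4 X ((le_max_right _ _).trans hX)).2
  obtain ⟨E, hE, h5⟩ := h3 X ((le_max_left _ _).trans hX)
  refine ⟨E.filter (fun x => 0 < x), (Finset.card_filter_le _ _).trans hE, fun H hH1 hH2 hHE S => ?_⟩
  have hH0 : 0 < H := hlX.trans_le hH1
  have hRH : R * H ≤ c * f X := by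
    have h6 : H ≤ c / R * f X := hH2.trans (mul_le_mul_of_nonneg_right (min_le_left _ _) hff.le)
    calc R * H ≤ R * (c / R * f X) := mul_le_mul_of_nonneg_left h6 hR0.le
      _ = c * f X := by field_simp
  have hblk : ∀ x ∈ E, H < ρ * x ∨ x < H := by
    intro x hx
    rcases le_or_gt x 0 with h6 | h6
    · right; linarith
    · rcases hHE x (Finset.mem_filter.2 ⟨hx, h6⟩) with h7 | h7
      · left
        exact h7.trans_le (mul_le_mul_of_nonneg_right (min_le_right _ _) h6.le)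
      · right; exact h7
  -- the finite approximation of the set
  have hch : ∀ z : ℝ, ∃ y : ℝ, (∃ y' ∈ S, |y'| ≤ R ∧ |y' - z| ≤ δ / 4) → (y ∈ S ∧ |y| ≤ R ∧ |y - z| ≤ δ / 4) := by
    intro z
    by_cases hz : ∃ y' ∈ S, |y'| ≤ R ∧ |y' - z| ≤ δ / 4
    · obtain ⟨y', h6, h7, h8⟩ := hz
      exact ⟨y', fun _ => ⟨h6, h7, h8⟩⟩
    · exact ⟨0, fun h => absurd h hz⟩
  choose g hg using hch
  set T : Finset ℝ := (Nf.filter (fun z => ∃ y' ∈ S, |y'| ≤ R ∧ |y' - z| ≤ δ / 4)).image g with hT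
  have hTmem : ∀ y ∈ T, y ∈ S ∧ |y| ≤ R := by
    intro y hy
    rw [hT, Finset.mem_image] at hy
    obtain ⟨z, hz, rfl⟩ := hy
    have h6 := hg z (Finset.mem_filter.1 hz).2
    exact ⟨h6.1, h6.2.1⟩
  have hTcard : T.card ≤ Nf.card := Finset.card_image_le.trans (Finset.card_filter_le _ _)
  have hTnet : ∀ y ∈ S, |y| ≤ R → ∃ y' ∈ T, |y - y'| ≤ δ / 2 := by
    intro y hy hyR
    obtain ⟨z, hz, hyz⟩ := hcov y hyR
    have h6 : ∃ y' ∈ S, |y'| ≤ R ∧ |y' - z| ≤ δ / 4 := ⟨y, hy, hyR, hyz⟩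
    refine ⟨g z, Finset.mem_image.2 ⟨z, Finset.mem_filter.2 ⟨hz, h6⟩, rfl⟩, ?_⟩
    have h7 := abs_le.1 (hg z h6).2.2
    have h8 := abs_le.1 hyz
    rw [abs_le]
    constructor <;> linarith
  refine (h5 H hH1 hRH hblk T hTcard (fun y hy => (hTmem y hy).2)).trans ?_
  have hfin : {n : ℕ | X < n ∧ (n : ℝ) ≤ 4 * X ∧
        (∀ p : ℕ, p.Prime → |(p : ℝ) - n| ≤ R * H → p ≡ a [MOD q] ∧ ∃ y ∈ S, |((p : ℝ) - n) / H - y| ≤ δ) ∧
        ∀ y ∈ S, |y| ≤ R →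
          m ≤ {p : ℕ | p.Prime ∧ p ≡ a [MOD q] ∧ |((p : ℝ) - n) / H - y| ≤ δ}.ncard}.Finite := by
    apply (Set.finite_Iic ⌊4 * X⌋₊).subset
    intro n hn
    rw [Set.mem_Iic]
    exact Nat.le_floor hn.2.1
  have hsub : {n : ℕ | X < n ∧ (n : ℝ) ≤ 4 * X ∧ Looks q a m B R (δ / 2) H T n} ⊆ {n : ℕ | X < n ∧
        (n : ℝ) ≤ 4 * X ∧
        (∀ p : ℕ, p.Prime → |(p : ℝ) - n| ≤ R * H → p ≡ a [MOD q] ∧ ∃ y ∈ S, |((p : ℝ) - n) / H - y| ≤ δ) ∧
        ∀ y ∈ S, |y| ≤ R →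
          m ≤ {p : ℕ | p.Prime ∧ p ≡ a [MOD q] ∧ |((p : ℝ) - n) / H - y| ≤ δ}.ncard} := by
    rintro n ⟨hn1, hn2, hn3, hn4, -⟩
    refine ⟨hn1, hn2, fun p hp hpn => ?_, fun y hy hyR => ?_⟩
    · obtain ⟨hpa, y, hy, hyp⟩ := hn3 p hp hpn
      exact ⟨hpa, y, (hTmem y hy).1, hyp.trans (by linarith)⟩
    · obtain ⟨y', hy', hyy⟩ := hTnet y hy hyR
      refine (hn4 y' hy').trans ?_
      apply Set.ncard_le_ncard _ (Pool.Agent.W142.ES.looks_finite q a δ H y hH0 n)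
      rintro p ⟨hp, hpa, hpb⟩
      refine ⟨hp, hpa, ?_⟩
      have h6 := abs_le.1 hpb
      have h7 := abs_le.1 hyy
      rw [abs_le]
      constructor <;> linarith
  exact_mod_cast Set.ncard_le_ncard hsub hfin

end Pool.Agent.Results.MP_b0c12c_nt.ExactScales
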