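import Mathlib
import Pool.Agent.W126.TreeMain

set_option autoImplicit false

/-!
# Monochromatic trees of primes between the average spacing and the record gap size

Colour the primes with `ρ` colours and prescribe `N` scales between `log X` and the size of the largest known
gaps, and for every scale a shape with `k` points. Then there are `N/k - O(√(ρN))` of these scales for which the
primes contain complete `k`-ary trees: `k^r` primes of one colour such that each of them sees, at each of the
`r` chosen scales, exactly the prescribed shape (and no further primes), and such that two of them whose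
indices differ for the first time at the `j`-th scale differ by the prescribed displacement at this scale.

Design and proof: helper126 (ordered Sauer-Shelah lemma for dense sets of words, trees of positions). It rests
on the coloured Maynard-Tao theorem inside the record windows (`Pool.Agent.H362R2.RQ.stRQ`, helper362), the record
sieve of helper256 and helper410 and the Maynard-Tao sieve inside record windows of helper312's team. Primes of a
class in short intervals: second difference method of helper142 with the Hoheisel theorem of helper295,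
helper180, helper154 and helper469.
-/

open Filter

namespace Pool.Agent.Results.MP_b0c12c_nt.MonochromaticTrees

/-- The record scale `f(x) = log x (log₂ x)² log₄ x / (log₃ x)²` (iterated natural logarithms). -/
noncomputable def f (x : ℝ) : ℝ :=
  Real.log x * (Real.log (Real.log x)) ^ 2 * Real.log (Real.log (Real.log (Real.log x))) /
    (Real.log (Real.log (Real.log x))) ^ 2

/-- At the scale `H` the primes seen from `p` form the set of the `V b`: every prime `p'` with
`|p' - p| ≤ R H` is `≡ a (mod q)` and has `(p' - p)/H` within `δ` of some `V b`; and for every `b` some prime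
`p' ≡ a (mod q)` has `(p' - p)/H` within `δ` of `V b`. -/
def Looks {k : ℕ} (q a : ℕ) (R δ H : ℝ) (V : Fin k → ℝ) (p : ℕ) : Prop :=
  (∀ p' : ℕ, p'.Prime → |(p' : ℝ) - p| ≤ R * H →
    p' ≡ a [MOD q] ∧ ∃ b, |((p' : ℝ) - p) / H - V b| ≤ δ) ∧
  (∀ b, ∃ p' : ℕ, p'.Prime ∧ p' ≡ a [MOD q] ∧ |((p' : ℝ) - p) / H - V b| ≤ δ)

/-- The numbers `P u`, `u ∈ {1, ..., k}^I`, form a tree of the colour `s` with the branching scales `H i`,
`i ∈ I`: they are primes `≡ a (mod q)` of the colour `s`; at each scale `H i`, `i ∈ I`, the primes seen from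
`P u` form the set of the `V i b - V i (u i)`; and if `u` and `u'` agree before `i` then `(P u' - P u)/H i` is
within `δ` of `V i (u' i) - V i (u i)`. -/
def IsTree {N k ρ : ℕ} (q a : ℕ) (R δ : ℝ) (H : Fin N → ℝ) (V : Fin N → Fin k → ℝ) (χ : ℕ → Fin ρ)
    (s : Fin ρ) (I : Finset (Fin N)) (P : (I → Fin k) → ℕ) : Prop :=
  (∀ u, (P u).Prime ∧ P u ≡ a [MOD q] ∧ χ (P u) = s) ∧
  (∀ (u : I → Fin k) (i : I), Looks q a R δ (H i) (fun b => V i b - V i (u i)) (P u)) ∧
  ∀ (u u' : I → Fin k) (i : I), (∀ j : I, j < i → u j = u' j) →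
    |((P u' : ℝ) - P u) / H i - (V i (u' i) - V i (u i))| ≤ δ

/-- There is an absolute constant `C`, and for all `k, ρ ≥ 1` and `N` there are `K` and `c > 0`, with the following
property. Let `R ≥ 1`, `0 < δ ≤ 1`, `q` squarefree, `a` prime to `q` and `X` large. Let `H 0, ..., H (N - 1)` be
scales with `log X ≤ H i`, `R H i ≤ c f(X)` and `80 R H j ≤ δ H i` for `i < j`, let `V i 0, ..., V i (k - 1)` be
arbitrary points of `[-R, R]` for every `i`, and let `χ` be any colouring with `ρ` colours. There are a
set `I` of at least `N/k - C √(ρN)` scales and a colour `s` such that at least `X^(7/8)` primes `p ∈ (X, 4X]`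
have at most `K` primes within `c f(X)` and belong to a tree of the colour `s` with the branching
scales `H i`, `i ∈ I`. -/
theorem result : ∃ C : ℝ, ∀ k ρ N : ℕ, 1 ≤ k → 1 ≤ ρ → ∃ K : ℕ, ∃ c : ℝ, 0 < c ∧
    ∀ R δ : ℝ, 1 ≤ R → 0 < δ → δ ≤ 1 → ∀ q a : ℕ, Squarefree q → a.Coprime q → ∃ X₀ : ℝ, ∀ X : ℝ, X₀ ≤ X →
    ∀ H : Fin N → ℝ, (∀ i, Real.log X ≤ H i ∧ R * H i ≤ c * f X) →
    (∀ i j : Fin N, i < j → 80 * R * H j ≤ δ * H i) →
    ∀ V : Fin N → Fin k → ℝ, (∀ i b, |V i b| ≤ R) → ∀ χ : ℕ → Fin ρ,
    ∃ (I : Finset (Fin N)) (s : Fin ρ), (N : ℝ) / k - C * Real.sqrt (ρ * N) ≤ I.card ∧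
      X ^ (7 / 8 : ℝ) ≤ ({p : ℕ | X < p ∧ (p : ℝ) ≤ 4 * X ∧
        {p' : ℕ | p'.Prime ∧ |(p' : ℝ) - p| ≤ c * f X}.ncard ≤ K ∧
        ∃ P : (I → Fin k) → ℕ, IsTree q a R δ H V χ s I P ∧ ∃ u, P u = p}.ncard : ℝ) :=
  Pool.Agent.W126.TreeMain.main

end Pool.Agent.Results.MP_b0c12c_nt.MonochromaticTrees
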